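import Pool.Agent.Lcg.Main
import Pool.Agent.SRC.Block

/-!
# LOC, output form (helper48)

For EVERY choice `g om z` of reference vertices (a function of `om`), the blocks which are not good form
a set `BadG`, a function of `(om, De)`, and there is a family `G om De` of local even sets with sum `De`.
-/

set_option autoImplicit false

namespace Pool.Agent.Lcg

open Finset
open Pool.Agent.SRC

variable {d : ℕ}

/-- the block `z` is good: the reference vertices of the neighbours are joined to that of `z` near `z`,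
and every vertex of `z` whose `De`-component near `z` has radius at least `l` is joined to it near `z` -/
def GoodG (K a l : ℤ) (lo hi : Vx d) (g : Finset (Ed d) → Vx d → Vx d) (om De : Finset (Ed d))
    (z : Vx d) : Prop :=
  (∀ i, z + uv i ∈ Finset.Icc lo hi →
    conn (↑(inS K om (ball a z))) (g om z) (g om (z + uv i))) ∧
  ∀ y, blk K y = z → Far l (↑(inS K De (ball a z))) y → conn (↑(inS K om (ball a z))) y (g om z)

/-- the bad blocks -/
noncomputable def BadG (K a l : ℤ) (lo hi : Vx d) (g : Finset (Ed d) → Vx d → Vx d)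
    (om De : Finset (Ed d)) : Finset (Vx d) :=
  fl (Finset.Icc lo hi) (fun z => ¬ GoodG K a l lo hi g om De z)

theorem mem_BadG {K a l : ℤ} {lo hi : Vx d} {g : Finset (Ed d) → Vx d → Vx d}
    {om De : Finset (Ed d)} {z : Vx d} :
    z ∈ BadG K a l lo hi g om De ↔ z ∈ Finset.Icc lo hi ∧ ¬ GoodG K a l lo hi g om De z :=
  mem_fl _ _ _

/-- a path which leaves the `a`-neighbourhood reaches distance `K (a - 1) + 1` inside it -/
theorem far_of_exit {K a l : ℤ} (hK : 0 < K) (ha : 0 ≤ a) (hl : l ≤ K * (a - 1) + 1)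
    {D : Finset (Ed d)} {z y w : Vx d} (hy : blk K y = z) (hw : conn (↑D) y w)
    (hn : ¬ near a z (blk K w)) : Far l (↑(inS K D (ball a z))) y := by
  -- the last vertex before the exit
  have key : ∀ v, conn (↑D) y v → (near a z (blk K v) ∧ conn (↑(inS K D (ball a z))) y v) ∨
      ∃ v', near a z (blk K v') ∧ conn (↑(inS K D (ball a z))) y v' ∧ ∃ i, a ≤ |z i - blk K v' i| := by
    intro v hv
    unfold conn at hv
    induction hv with
    | refl =>
      left
      refine ⟨?_, conn_refl _ _⟩
      rw [hy]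
      exact near_refl ha z
    | tail _ hbc ih =>
      rename_i b c _
      rcases ih with ⟨h1, h2⟩ | h
      · have hadj : ∃ e ∈ D, (e.1 = b ∧ tip e = c) ∨ (e.1 = c ∧ tip e = b) := by
          obtain ⟨i, hi⟩ := hbc
          rcases hi with ⟨h3, h4⟩ | ⟨h3, h4⟩
          · exact ⟨(b, i), Finset.mem_coe.mp h3, Or.inl ⟨rfl, h4.symm⟩⟩
          · exact ⟨(c, i), Finset.mem_coe.mp h3, Or.inr ⟨rfl, h4.symm⟩⟩
        obtain ⟨e, he, hee⟩ := hadj
        by_cases h3 : near a z (blk K c)
        · left
          refine ⟨h3, conn_trans h2 ?_⟩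
          have h4 : e ∈ inS K D (ball a z) := by
            rw [mem_inS]
            rcases hee with ⟨e1, e2⟩ | ⟨e1, e2⟩
            · exact ⟨he, by rw [e1]; exact h1, by rw [e2]; exact h3⟩
            · exact ⟨he, by rw [e1]; exact h3, by rw [e2]; exact h1⟩
          rcases hee with ⟨e1, e2⟩ | ⟨e1, e2⟩
          · have h5 := conn_tip h4
            rwa [e1, e2] at h5
          · have h5 := conn_symm (conn_tip h4)
            rwa [e1, e2] at h5
        · right
          refine ⟨b, h1, h2, ?_⟩
          unfold near at h3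
          push Not at h3
          obtain ⟨i, hi⟩ := h3
          refine ⟨i, ?_⟩
          have h6 : near 1 (blk K b) (blk K c) := by
            rcases hee with ⟨e1, e2⟩ | ⟨e1, e2⟩
            · rw [← e1, ← e2]
              rcases blk_tip hK e with h | h
              · rw [h]; exact near_refl (by norm_num) _
              · rw [h]; exact near_uv _ _
            · rw [← e1, ← e2]
              refine near_symm ?_
              rcases blk_tip hK e with h | h
              · rw [h]; exact near_refl (by norm_num) _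
              · rw [h]; exact near_uv _ _
          have h7 := h6 i
          have h8 := abs_sub_le (z i) (blk K b i) (blk K c i)
          linarith
      · exact Or.inr h
  rcases key w hw with ⟨h1, _⟩ | ⟨v', _, h2, i, hi⟩
  · exact absurd h1 hn
  · refine ⟨v', h2, i, ?_⟩
    have e1 : K * (y i / K) ≤ y i := Int.mul_ediv_self_le hK.ne'
    have e2 : y i < K * (y i / K) + K := Int.lt_mul_ediv_self_add hK
    have e3 : K * (v' i / K) ≤ v' i := Int.mul_ediv_self_le hK.ne'
    have e4 : v' i < K * (v' i / K) + K := Int.lt_mul_ediv_self_add hK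
    have e5 : y i / K = z i := congrFun hy i
    have e6 : a ≤ |z i - v' i / K| := hi
    rw [e5] at e1 e2
    rcases abs_cases (z i - v' i / K) with ⟨h3, _⟩ | ⟨h3, _⟩
    · rw [h3] at e6
      have h4 : K * (v' i / K) ≤ K * (z i - a) := mul_le_mul_of_nonneg_left (by linarith) hK.le
      have h5 : l ≤ y i - v' i := by nlinarith
      rw [abs_sub_comm]
      exact h5.trans (le_abs_self _)
    · rw [h3] at e6
      have h4 : K * (z i + a) ≤ K * (v' i / K) := mul_le_mul_of_nonneg_left (by linarith) hK.le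
      have h5 : l ≤ v' i - y i := by nlinarith
      exact h5.trans (le_abs_self _)

/-- **LOC, output form.** -/
theorem exists_G {K a l : ℤ} (hK : 0 < K) (ha : 0 ≤ a) (hl : l ≤ K * (a - 1) + 1) (lo hi : Vx d)
    (E : Finset (Ed d)) (hE : ∀ e ∈ E, blk K e.1 ∈ Finset.Icc lo hi ∧ blk K (tip e) ∈ Finset.Icc lo hi)
    (g : Finset (Ed d) → Vx d → Vx d) :
    ∃ G : Finset (Ed d) → Finset (Ed d) → Finset (Finset (Ed d)),
      ∀ om De, om ⊆ E → De ⊆ om → bd De = 0 →
        (∀ h ∈ G om De, h ⊆ om ∧ bd h = 0) ∧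
        (∀ e, (e ∈ De ↔ Odd ((G om De).filter (fun h => e ∈ h)).card)) ∧
        ∀ h ∈ G om De, ∃ z ∈ Finset.Icc lo hi, ∀ e ∈ h,
          (∃ u, SC (BadG K a l lo hi g om De) z u ∧ near (a + 1) u (blk K e.1)) ∧
          ∃ u, SC (BadG K a l lo hi g om De) z u ∧ near (a + 1) u (blk K (tip e)) := by
  classical
  have key : ∀ om De : Finset (Ed d), ∃ F : Finset (Finset (Ed d)),
      om ⊆ E → De ⊆ om → bd De = 0 →
        (∀ h ∈ F, h ⊆ om ∧ bd h = 0) ∧
        (∀ e, (e ∈ De ↔ Odd (F.filter (fun h => e ∈ h)).card)) ∧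
        ∀ h ∈ F, ∃ z ∈ Finset.Icc lo hi, ∀ e ∈ h,
          (∃ u, SC (BadG K a l lo hi g om De) z u ∧ near (a + 1) u (blk K e.1)) ∧
          ∃ u, SC (BadG K a l lo hi g om De) z u ∧ near (a + 1) u (blk K (tip e)) := by
    intro om De
    by_cases hc : om ⊆ E ∧ De ⊆ om ∧ bd De = 0
    · obtain ⟨h1, h2, h3⟩ := hc
      obtain ⟨F, hF, hodd⟩ := loc hK ha lo hi om De h2 h3 (fun e he => hE e (h1 (h2 he)))
        (BadG K a l lo hi g om De) (fl_subset _ _) (g om)
        (fun z i hz hzi hzB _ => by
          have hg : GoodG K a l lo hi g om De z := by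
            by_contra hcon
            exact hzB (mem_BadG.mpr ⟨hz, hcon⟩)
          exact hg.1 i hzi)
        (fun z hz hzB y hy hex => by
          have hg : GoodG K a l lo hi g om De z := by
            by_contra hcon
            exact hzB (mem_BadG.mpr ⟨hz, hcon⟩)
          obtain ⟨w, hw1, hw2⟩ := hex
          exact hg.2 y hy (far_of_exit hK ha hl hy hw1 hw2))
      exact ⟨F, fun _ _ _ => ⟨fun h hh => ⟨(hF h hh).1, (hF h hh).2.1⟩, hodd,
        fun h hh => (hF h hh).2.2⟩⟩
    · exact ⟨∅, fun p q r => absurd ⟨p, q, r⟩ hc⟩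
  choose G hG using key
  exact ⟨G, hG⟩

/-- two edges of one local set: near each other, or near one star component of bad blocks -/
theorem reach {a : ℤ} {Bad : Finset (Vx d)} {z p q : Vx d}
    (hp : ∃ u, SC Bad z u ∧ near (a + 1) u p) (hq : ∃ u, SC Bad z u ∧ near (a + 1) u q) :
    near (2 * (a + 1)) p q ∨ ∃ u ∈ Bad, ∃ v ∈ Bad, near (a + 1) p u ∧ SC Bad u v ∧
      near (a + 1) v q := by
  obtain ⟨u, hu1, hu2⟩ := hp
  obtain ⟨v, hv1, hv2⟩ := hq
  by_cases hz : z ∈ Bad
  · exact Or.inr ⟨u, SC_mem hu1 hz, v, SC_mem hv1 hz, near_symm hu2,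
      Relation.ReflTransGen.trans (SC_symm hu1) hv1, hv2⟩
  · left
    rw [SC_eq hu1 hz] at hu2
    rw [SC_eq hv1 hz] at hv2
    have := near_trans (near_symm hu2) hv2
    rwa [show a + 1 + (a + 1) = 2 * (a + 1) by ring] at this

/-- goodness is a local event: it depends on `om`, `De` near `z` and on the reference vertices -/
theorem GoodG_congr {K a l : ℤ} {lo hi : Vx d} {g : Finset (Ed d) → Vx d → Vx d}
    {om De om' De' : Finset (Ed d)} {z : Vx d} (h1 : inS K om (ball a z) = inS K om' (ball a z))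
    (h2 : inS K De (ball a z) = inS K De' (ball a z)) (h3 : g om z = g om' z)
    (h4 : ∀ i, g om (z + uv i) = g om' (z + uv i)) :
    GoodG K a l lo hi g om De z ↔ GoodG K a l lo hi g om' De' z := by
  unfold GoodG
  rw [h1, h2, h3]
  constructor
  · rintro ⟨p, q⟩
    exact ⟨fun i hi' => (h4 i) ▸ p i hi', q⟩
  · rintro ⟨p, q⟩
    exact ⟨fun i hi' => (h4 i).symm ▸ p i hi', q⟩

end Pool.Agent.Lcg
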