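import Pool.Agent.SRC.Defs

/-!
# LOC, algebraic part (helper48)

Edge sets as elements of `Ed d → ZMod 2`; duality; potentials of a cochain which vanishes on even sets.
-/

set_option autoImplicit false

namespace Pool.Agent.Lcg

open Finset
open Pool.Agent.SRC

variable {d : ℕ}

theorem z2_add_self (a : ZMod 2) : a + a = 0 := CharTwo.add_self_eq_zero a

theorem z2_cases (a : ZMod 2) : a = 0 ∨ a = 1 := by
  revert a; decide

theorem z2_eq_of_add {a b : ZMod 2} (h : a + b = 0) : a = b := by
  revert a b; decide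

/-- characteristic function of an edge set -/
noncomputable def chi (h : Finset (Ed d)) : Ed d → ZMod 2 := ∑ e ∈ h, Pi.single e 1

open Classical in
theorem chi_apply (h : Finset (Ed d)) (e : Ed d) : chi h e = if e ∈ h then 1 else 0 := by
  unfold chi
  rw [Finset.sum_apply]
  by_cases he : e ∈ h
  · rw [if_pos he, Finset.sum_eq_single e]
    · simp
    · intro b _ hb
      exact Pi.single_eq_of_ne (Ne.symm hb) 1
    · intro h1
      exact absurd he h1
  · rw [if_neg he]
    refine Finset.sum_eq_zero fun b hb => ?_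
    have : e ≠ b := fun h1 => he (h1 ▸ hb)
    exact Pi.single_eq_of_ne this 1

/-- linear functionals on chains -/
theorem lin_chi (f : (Ed d → ZMod 2) →ₗ[ZMod 2] ZMod 2) (h : Finset (Ed d)) :
    f (chi h) = ∑ e ∈ h, f (Pi.single e 1) := by
  unfold chi
  rw [map_sum]

theorem sum_symmDiff_two {α M : Type*} [DecidableEq α] [AddCommGroup M] (h2 : ∀ m : M, m + m = 0)
    (F G : Finset α) (f : α → M) : ∑ h ∈ symmDiff F G, f h = ∑ h ∈ F, f h + ∑ h ∈ G, f h := by
  have h1 : symmDiff F G = (F \ G) ∪ (G \ F) := rfl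
  have hd1 : Disjoint (F \ G) (G \ F) := by
    rw [Finset.disjoint_left]
    intro a ha hb
    exact (Finset.mem_sdiff.mp hb).2 (Finset.mem_sdiff.mp ha).1
  rw [h1, Finset.sum_union hd1]
  have e1 := Finset.sum_sdiff (f := f) (Finset.inter_subset_left (s₁ := F) (s₂ := G))
  have e2 := Finset.sum_sdiff (f := f) (Finset.inter_subset_right (s₁ := F) (s₂ := G))
  rw [Finset.sdiff_inter_self_left] at e1
  rw [Finset.sdiff_inter_self_right] at e2
  rw [← e1, ← e2]
  calc (∑ h ∈ F \ G, f h) + (∑ h ∈ G \ F, f h)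
      = (∑ h ∈ F \ G, f h) + (∑ h ∈ G \ F, f h) +
        ((∑ h ∈ F ∩ G, f h) + ∑ h ∈ F ∩ G, f h) := by rw [h2, add_zero]
    _ = _ := by abel

/-- elements of the span of characteristic functions are sums of finitely many of them -/
theorem exists_family {P : Finset (Ed d) → Prop} {x : Ed d → ZMod 2}
    (hx : x ∈ Submodule.span (ZMod 2) (chi '' {h | P h})) :
    ∃ F : Finset (Finset (Ed d)), (∀ h ∈ F, P h) ∧ x = ∑ h ∈ F, chi h := by
  classical
  induction hx using Submodule.span_induction with
  | mem x hx =>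
    obtain ⟨h, hh, rfl⟩ := hx
    refine ⟨{h}, ?_, ?_⟩
    · intro h' hh'
      rw [Finset.mem_singleton] at hh'
      exact hh' ▸ hh
    · rw [Finset.sum_singleton]
  | zero => exact ⟨∅, by simp, by simp⟩
  | add x y _ _ ihx ihy =>
    obtain ⟨F, hF, rfl⟩ := ihx
    obtain ⟨G, hG, rfl⟩ := ihy
    refine ⟨symmDiff F G, ?_, ?_⟩
    · intro h hh
      rw [Finset.mem_symmDiff] at hh
      rcases hh with h1 | h1
      · exact hF h h1.1
      · exact hG h h1.1
    · exact (sum_symmDiff_two (fun m => by funext e; exact z2_add_self _) F G _).symm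
  | smul a x _ ih =>
    obtain ⟨F, hF, rfl⟩ := ih
    rcases z2_cases a with h | h
    · exact ⟨∅, by simp, by rw [h]; simp⟩
    · exact ⟨F, hF, by rw [h, one_smul]⟩

/-- a sum of characteristic functions is a symmetric difference -/
theorem odd_of_sum {D : Finset (Ed d)} {F : Finset (Finset (Ed d))}
    (h : chi D = ∑ h ∈ F, chi h) (e : Ed d) :
    e ∈ D ↔ Odd (F.filter (fun h => e ∈ h)).card := by
  classical
  have h1 := congrFun h e
  rw [Finset.sum_apply, chi_apply] at h1
  have h2 : ∑ c ∈ F, chi c e = ((F.filter (fun h => e ∈ h)).card : ZMod 2) := by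
    rw [Finset.card_filter]
    push_cast
    refine Finset.sum_congr rfl fun c _ => ?_
    rw [chi_apply]
  rw [h2] at h1
  rw [← Nat.not_even_iff_odd, ← ZMod.natCast_eq_zero_iff_even, ← h1]
  by_cases he : e ∈ D
  · simp [he]
  · simp [he]

/-- duality -/
theorem mem_span_of_dual {P : Finset (Ed d) → Prop} {D : Finset (Ed d)}
    (H : ∀ f : Ed d → ZMod 2, (∀ h, P h → ∑ e ∈ h, f e = 0) → ∑ e ∈ D, f e = 0) :
    chi D ∈ Submodule.span (ZMod 2) (chi '' {h | P h}) := by
  by_contra hc
  obtain ⟨f, hf, hker⟩ := Submodule.exists_le_ker_of_notMem hc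
  apply hf
  rw [lin_chi]
  refine H _ fun h hh => ?_
  rw [← lin_chi]
  have : chi h ∈ LinearMap.ker f := hker (Submodule.subset_span ⟨h, hh, rfl⟩)
  exact this

/-- potentials -/
theorem exists_pot (E : Finset (Ed d)) (f : Ed d → ZMod 2)
    (H : ∀ h, h ⊆ E → bd h = 0 → ∑ e ∈ h, f e = 0) :
    ∃ p : Vx d → ZMod 2, ∀ e ∈ E, f e = p e.1 + p (tip e) := by
  classical
  let v : Ed d → (Vx d → ZMod 2) × ZMod 2 := fun e => (bde e, f e)
  have hspan : ∀ x ∈ Submodule.span (ZMod 2) (v '' (E : Set (Ed d))),
      ∃ h, h ⊆ E ∧ x = ∑ e ∈ h, v e := by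
    intro x hx
    induction hx using Submodule.span_induction with
    | mem x hx =>
      obtain ⟨e, he, rfl⟩ := hx
      refine ⟨{e}, Finset.singleton_subset_iff.mpr he, ?_⟩
      rw [Finset.sum_singleton]
    | zero => exact ⟨∅, Finset.empty_subset _, by simp⟩
    | add x y _ _ ihx ihy =>
      obtain ⟨F, hF, rfl⟩ := ihx
      obtain ⟨G, hG, rfl⟩ := ihy
      refine ⟨symmDiff F G, ?_, ?_⟩
      · intro e he
        rw [Finset.mem_symmDiff] at he
        rcases he with h1 | h1
        · exact hF h1.1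
        · exact hG h1.1
      · exact (sum_symmDiff_two (fun m => by
          ext
          · exact z2_add_self _
          · exact z2_add_self _) F G _).symm
    | smul a x _ ih =>
      obtain ⟨F, hF, rfl⟩ := ih
      rcases z2_cases a with h | h
      · exact ⟨∅, Finset.empty_subset _, by rw [h]; simp⟩
      · exact ⟨F, hF, by rw [h, one_smul]⟩
  have hn : ((0, 1) : (Vx d → ZMod 2) × ZMod 2) ∉ Submodule.span (ZMod 2) (v '' (E : Set (Ed d))) := by
    intro hc
    obtain ⟨h, hh, hc⟩ := hspan _ hc
    have h2 := congrArg Prod.fst hc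
    have h3 := congrArg Prod.snd hc
    rw [Prod.fst_sum] at h2
    rw [Prod.snd_sum] at h3
    have h4 := H h hh h2.symm
    simp only [v] at h3
    rw [h4] at h3
    exact absurd h3 (by decide)
  obtain ⟨g, hg, hker⟩ := Submodule.exists_le_ker_of_notMem hn
  have hg1 : g (0, 1) = 1 := (z2_cases _).resolve_left hg
  refine ⟨fun w => g (Pi.single w 1, 0), fun e he => ?_⟩
  have h1 : g (bde e, f e) = 0 := hker (Submodule.subset_span ⟨e, he, rfl⟩)
  have h2 : ((bde e, f e) : (Vx d → ZMod 2) × ZMod 2) =
      (Pi.single e.1 1, 0) + (Pi.single (tip e) 1, 0) + f e • (0, 1) := by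
    unfold bde
    ext <;> simp
  rw [h2, map_add, map_add, map_smul, hg1, smul_eq_mul, mul_one] at h1
  exact (z2_eq_of_add h1).symm

/-- pairing of a vertex function with the boundary -/
theorem pair_bd (h : Finset (Ed d)) (p : Vx d → ZMod 2) (hbd : bd h = 0) :
    ∑ e ∈ h, (p e.1 + p (tip e)) = 0 := by
  classical
  let S : Finset (Vx d) := h.image (fun e => e.1) ∪ h.image tip
  have h1 : ∀ e ∈ h, p e.1 + p (tip e) = ∑ v ∈ S, p v * bde e v := by
    intro e he
    have h2 : ∀ w ∈ S, ∑ v ∈ S, p v * (Pi.single w (1 : ZMod 2) : Vx d → ZMod 2) v = p w := by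
      intro w hw
      rw [Finset.sum_eq_single w]
      · simp
      · intro b _ hb
        rw [Pi.single_eq_of_ne hb, mul_zero]
      · intro h3
        exact absurd hw h3
    unfold bde
    simp only [Pi.add_apply, mul_add, Finset.sum_add_distrib]
    rw [h2, h2]
    · exact Finset.mem_union_right _ (Finset.mem_image_of_mem _ he)
    · exact Finset.mem_union_left _ (Finset.mem_image.mpr ⟨e, he, rfl⟩)
  rw [Finset.sum_congr rfl h1, Finset.sum_comm]
  refine Finset.sum_eq_zero fun v _ => ?_
  rw [← Finset.mul_sum]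
  have h3 : ∑ e ∈ h, bde e v = bd h v := by
    unfold bd
    rw [Finset.sum_apply]
  rw [h3, hbd]
  simp

/-- a potential changes by the same amount along a path for all potentials of the same cochain -/
theorem pot_conn {E : Finset (Ed d)} {p q : Vx d → ZMod 2}
    (h : ∀ e ∈ E, p e.1 + p (tip e) = q e.1 + q (tip e)) {x y : Vx d}
    (hxy : conn (↑E) x y) : p x + q x = p y + q y := by
  unfold conn at hxy
  induction hxy with
  | refl => rfl
  | tail _ hbc ih =>
    rename_i b c _
    rw [ih]
    obtain ⟨i, hi⟩ := hbc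
    rcases hi with ⟨h1, h2⟩ | ⟨h1, h2⟩
    · have h3 := h _ h1
      simp only at h3
      have h4 : tip ((b, i) : Ed d) = c := h2.symm
      rw [h4] at h3
      revert h3
      generalize p b = a1; generalize p c = a2; generalize q b = a3; generalize q c = a4
      revert a1 a2 a3 a4
      decide
    · have h3 := h _ h1
      simp only at h3
      have h4 : tip ((c, i) : Ed d) = b := h2.symm
      rw [h4] at h3
      revert h3
      generalize p b = a1; generalize p c = a2; generalize q b = a3; generalize q c = a4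
      revert a1 a2 a3 a4
      decide

end Pool.Agent.Lcg
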