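import Pool.Agent.Lcg.Alg

/-!
# LOC, grid part (helper48): closed cochains modulo 2 on a box of `ℤ^d` are exact
-/

set_option autoImplicit false

namespace Pool.Agent.Lcg

open Finset
open Pool.Agent.SRC

variable {d : ℕ}

/-- closed on the box -/
def Closed (lo hi : Vx d) (α : Vx d → Fin d → ZMod 2) : Prop :=
  ∀ (z : Vx d) (i j : Fin d), i ≠ j → z ∈ Finset.Icc lo hi → z + uv i + uv j ∈ Finset.Icc lo hi →
    α z i + α (z + uv i) j + (α z j + α (z + uv j) i) = 0

theorem uv_apply (i j : Fin d) : (uv i : Vx d) j = if j = i then 1 else 0 := by
  unfold uv
  by_cases h : j = i
  · subst h; simp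
  · rw [if_neg h, Pi.single_eq_of_ne h]

theorem uv_nonneg (i : Fin d) : (0 : Vx d) ≤ uv i := by
  intro j
  rw [uv_apply]
  split_ifs
  · exact zero_le_one
  · exact le_refl _

theorem update_add_uv (z : Vx d) (k i : Fin d) (hik : i ≠ k) (t : ℤ) :
    Function.update z k t + uv i = Function.update (z + uv i) k t := by
  funext j
  rw [Pi.add_apply]
  by_cases h : j = k
  · subst h
    rw [Function.update_self, Function.update_self, uv_apply, if_neg (Ne.symm hik), add_zero]
  · rw [Function.update_of_ne h, Function.update_of_ne h, Pi.add_apply]

theorem update_add_uv_self (z : Vx d) (k : Fin d) (t : ℤ) :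
    Function.update (z + uv k) k t = Function.update z k t := by
  funext j
  by_cases h : j = k
  · subst h
    rw [Function.update_self, Function.update_self]
  · rw [Function.update_of_ne h, Function.update_of_ne h, Pi.add_apply, uv_apply, if_neg h, add_zero]

private lemma four (a b c e : ZMod 2) (h : a + b + (c + e) = 0) (ha : a = 0) (he : e = 0) :
    b + c = 0 := by
  rw [ha, he] at h
  simpa using h

/-- closed cochains are exact -/
theorem exact_of_closed (lo hi : Vx d) (α : Vx d → Fin d → ZMod 2) (hα : Closed lo hi α) :
    ∃ κ : Vx d → ZMod 2, ∀ (z : Vx d) (i : Fin d), z ∈ Finset.Icc lo hi →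
      z + uv i ∈ Finset.Icc lo hi → α z i = κ z + κ (z + uv i) := by
  have key : ∀ k : ℕ, k ≤ d → ∃ κ : Vx d → ZMod 2, ∀ (z : Vx d) (i : Fin d), i.val < k →
      z ∈ Finset.Icc lo hi → z + uv i ∈ Finset.Icc lo hi → α z i = κ z + κ (z + uv i) := by
    intro k
    induction k with
    | zero => exact fun _ => ⟨fun _ => 0, fun z i h => absurd h (Nat.not_lt_zero _)⟩
    | succ k ih =>
      intro hk
      obtain ⟨κ, hκ⟩ := ih (by omega)
      let q : Fin d := ⟨k, by omega⟩
      let β : Vx d → Fin d → ZMod 2 := fun z i => α z i + (κ z + κ (z + uv i))
      have hβ0 : ∀ (z : Vx d) (i : Fin d), i.val < k → z ∈ Finset.Icc lo hi →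
          z + uv i ∈ Finset.Icc lo hi → β z i = 0 := by
        intro z i h1 h2 h3
        simp only [β]
        rw [hκ z i h1 h2 h3]
        exact z2_add_self _
      have hβc : Closed lo hi β := by
        intro z i j hij h1 h2
        have h3 := hα z i j hij h1 h2
        simp only [β]
        have h4 : z + uv j + uv i = z + uv i + uv j := by abel
        rw [h4]
        revert h3
        generalize α z i = a1; generalize α (z + uv i) j = a2; generalize α z j = a3
        generalize α (z + uv j) i = a4; generalize κ z = a5; generalize κ (z + uv i) = a6
        generalize κ (z + uv i + uv j) = a7; generalize κ (z + uv j) = a8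
        revert a1 a2 a3 a4 a5 a6 a7 a8
        decide
      let μ : Vx d → ZMod 2 := fun z => ∑ t ∈ Finset.Ico (lo q) (z q), β (Function.update z q t) q
      refine ⟨fun z => κ z + μ z, fun z i hi' hz hzi => ?_⟩
      rw [Finset.mem_Icc] at hz hzi
      by_cases hiq : i = q
      · subst hiq
        have h1 : μ (z + uv q) = μ z + β z q := by
          simp only [μ]
          have h2 : (z + uv q) q = z q + 1 := by
            rw [Pi.add_apply, uv_apply, if_pos rfl]
          rw [h2]
          have h3 : Finset.Ico (lo q) (z q + 1) = insert (z q) (Finset.Ico (lo q) (z q)) := by
            ext t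
            rw [Finset.mem_insert, Finset.mem_Ico, Finset.mem_Ico]
            have hq : lo q ≤ z q := hz.1 q
            omega
          rw [h3, Finset.sum_insert (by rw [Finset.mem_Ico]; omega)]
          rw [update_add_uv_self, Function.update_eq_self, add_comm]
          congr 1
          refine Finset.sum_congr rfl fun t _ => ?_
          rw [update_add_uv_self]
        show α z q = κ z + μ z + (κ (z + uv q) + μ (z + uv q))
        rw [h1]
        simp only [β]
        generalize α z q = a1; generalize κ z = a2; generalize μ z = a3
        generalize κ (z + uv q) = a4
        revert a1 a2 a3 a4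
        decide
      · have hik : i.val < k := by
          have h1 : i.val ≠ k := fun h => hiq (Fin.ext h)
          omega
        have h1 : μ z + μ (z + uv i) = 0 := by
          simp only [μ]
          have h2 : (z + uv i) q = z q := by
            rw [Pi.add_apply, uv_apply, if_neg (Ne.symm hiq), add_zero]
          rw [h2, ← Finset.sum_add_distrib]
          refine Finset.sum_eq_zero fun t ht => ?_
          rw [Finset.mem_Ico] at ht
          have hw : Function.update z q t ∈ Finset.Icc lo hi := by
            rw [Finset.mem_Icc]
            constructor
            · intro j
              by_cases h : j = q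
              · subst h; rw [Function.update_self]; exact ht.1
              · rw [Function.update_of_ne h]; exact hz.1 j
            · intro j
              by_cases h : j = q
              · subst h; rw [Function.update_self]
                exact le_trans (le_of_lt ht.2) (hz.2 q)
              · rw [Function.update_of_ne h]; exact hz.2 j
          have hw2 : Function.update z q t + uv i + uv q ∈ Finset.Icc lo hi := by
            rw [Finset.mem_Icc]
            constructor
            · intro j
              rw [Pi.add_apply, Pi.add_apply]
              have a1 := uv_nonneg i j
              have a2 := uv_nonneg q j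
              have a3 := (Finset.mem_Icc.mp hw).1 j
              simp only [Pi.zero_apply] at a1 a2
              linarith
            · intro j
              rw [update_add_uv z q i hiq, Pi.add_apply]
              by_cases h : j = q
              · subst h
                rw [Function.update_self, uv_apply, if_pos rfl]
                exact le_trans (Int.add_one_le_iff.mpr ht.2) (hz.2 q)
              · rw [Function.update_of_ne h, uv_apply, if_neg h, add_zero]
                exact hzi.2 j
          have hwi : Function.update z q t + uv i ∈ Finset.Icc lo hi := by
            rw [Finset.mem_Icc]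
            constructor
            · intro j
              rw [Pi.add_apply]
              have a1 := uv_nonneg i j
              have a3 := (Finset.mem_Icc.mp hw).1 j
              simp only [Pi.zero_apply] at a1
              linarith
            · intro j
              have a2 := uv_nonneg q j
              have a3 := (Finset.mem_Icc.mp hw2).2 j
              rw [Pi.add_apply] at a3
              simp only [Pi.zero_apply] at a2
              linarith
          have hwq : Function.update z q t + uv q ∈ Finset.Icc lo hi := by
            rw [Finset.mem_Icc]
            constructor
            · intro j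
              rw [Pi.add_apply]
              have a1 := uv_nonneg q j
              have a3 := (Finset.mem_Icc.mp hw).1 j
              simp only [Pi.zero_apply] at a1
              linarith
            · intro j
              have a2 := uv_nonneg i j
              have a3 := (Finset.mem_Icc.mp hw2).2 j
              rw [Pi.add_apply, Pi.add_apply] at a3
              rw [Pi.add_apply]
              simp only [Pi.zero_apply] at a2
              linarith
          have hc := hβc _ i q hiq hw hw2
          have hb1 := hβ0 _ i hik hw hwi
          have hb2 := hβ0 (Function.update z q t + uv q) i hik hwq (by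
            rw [add_assoc, add_comm (uv q), ← add_assoc]; exact hw2)
          rw [← update_add_uv z q i hiq, add_comm (β (Function.update z q t) q)]
          exact four _ _ _ _ hc hb1 hb2
        show α z i = κ z + μ z + (κ (z + uv i) + μ (z + uv i))
        rw [hκ z i hik (Finset.mem_Icc.mpr hz) (Finset.mem_Icc.mpr hzi)]
        revert h1
        generalize κ z = a1; generalize μ z = a2; generalize κ (z + uv i) = a3
        generalize μ (z + uv i) = a4
        revert a1 a2 a3 a4
        decide
  obtain ⟨κ, hκ⟩ := key d (le_refl d)
  exact ⟨κ, fun z i h1 h2 => hκ z i i.isLt h1 h2⟩

end Pool.Agent.Lcg
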