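import Pool.Agent.Lcg.Grid

/-!
# LOC (helper48): local generation of even edge sets

`ω` a finite edge set, `Δ ⊆ ω` even. Vertices are grouped in blocks of side `K`. `Bad` is a set of blocks,
`g z` a reference vertex of the block `z`. If in every good block `z` the reference vertices of
neighbouring good blocks are joined near `z` in `ω`, and every vertex near `z` whose `Δ`-component leaves
the `a`-neighbourhood of `z` is joined near `z` to `g z` in `ω`, then `Δ` is a sum modulo 2 of even subsets
of `ω`, each in the `(a+1)`-neighbourhood of one block or of one star component of `Bad`.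
Proof by duality: `f` vanishing on the local even sets has potentials in the regions; the differences
form a closed 1-cochain on the grid of blocks, hence exact; so `f` has one potential along `Δ`.
-/

set_option autoImplicit false

namespace Pool.Agent.Lcg

open Finset
open Pool.Agent.SRC

variable {d : ℕ}

/-- block of a vertex -/
def blk (K : ℤ) (x : Vx d) : Vx d := fun i => x i / K

/-- sup distance at most `m` -/
def near (m : ℤ) (z w : Vx d) : Prop := ∀ i, |z i - w i| ≤ m

/-- edges of `ω` with both ends in blocks of `S` -/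
noncomputable def inS (K : ℤ) (ω : Finset (Ed d)) (S : Set (Vx d)) : Finset (Ed d) :=
  fl ω (fun e => blk K e.1 ∈ S ∧ blk K (tip e) ∈ S)

/-- star adjacency in `Bad` -/
def star (Bad : Finset (Vx d)) (u v : Vx d) : Prop := u ∈ Bad ∧ v ∈ Bad ∧ near 1 u v

/-- star connection in `Bad` -/
def SC (Bad : Finset (Vx d)) : Vx d → Vx d → Prop := Relation.ReflTransGen (star Bad)

/-- the local region of a block: the `(a+1)`-neighbourhood of its star component -/
def reg (a : ℤ) (Bad : Finset (Vx d)) (z : Vx d) : Set (Vx d) :=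
  {w | ∃ u, SC Bad z u ∧ near (a + 1) u w}

/-- the `a`-neighbourhood of a block -/
def ball (a : ℤ) (z : Vx d) : Set (Vx d) := {w | near a z w}

/-! ## basic facts -/

theorem near_refl {m : ℤ} (hm : 0 ≤ m) (z : Vx d) : near m z z := by
  intro i
  rw [sub_self, abs_zero]
  exact hm

theorem near_symm {m : ℤ} {z w : Vx d} (h : near m z w) : near m w z := by
  intro i
  rw [abs_sub_comm]
  exact h i

theorem near_trans {m n : ℤ} {z w v : Vx d} (h : near m z w) (h' : near n w v) :
    near (m + n) z v := by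
  intro i
  have h1 := h i
  have h2 := h' i
  have h3 := abs_sub_le (z i) (w i) (v i)
  linarith

theorem near_mono {m n : ℤ} (hmn : m ≤ n) {z w : Vx d} (h : near m z w) : near n z w :=
  fun i => (h i).trans hmn

theorem near_uv (z : Vx d) (i : Fin d) : near 1 z (z + uv i) := by
  intro k
  rw [Pi.add_apply, uv_apply]
  split_ifs
  · rw [show z k - (z k + 1) = -1 by ring]; norm_num
  · rw [show z k - (z k + 0) = 0 by ring]; norm_num

theorem mem_inS {K : ℤ} {ω : Finset (Ed d)} {S : Set (Vx d)} {e : Ed d} :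
    e ∈ inS K ω S ↔ e ∈ ω ∧ blk K e.1 ∈ S ∧ blk K (tip e) ∈ S := mem_fl _ _ _

theorem inS_mono {K : ℤ} {ω : Finset (Ed d)} {S T : Set (Vx d)} (h : S ⊆ T) :
    inS K ω S ⊆ inS K ω T := by
  intro e he
  rw [mem_inS] at he ⊢
  exact ⟨he.1, h he.2.1, h he.2.2⟩

theorem SC_symm {Bad : Finset (Vx d)} {u v : Vx d} (h : SC Bad u v) : SC Bad v u := by
  unfold SC at *
  induction h with
  | refl => exact Relation.ReflTransGen.refl
  | tail _ h2 ih => exact Relation.ReflTransGen.head ⟨h2.2.1, h2.1, near_symm h2.2.2⟩ ih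

theorem SC_mem {Bad : Finset (Vx d)} {u v : Vx d} (h : SC Bad u v) (hu : u ∈ Bad) : v ∈ Bad := by
  unfold SC at h
  induction h with
  | refl => exact hu
  | tail _ h2 _ => exact h2.2.1

theorem SC_eq {Bad : Finset (Vx d)} {u v : Vx d} (h : SC Bad u v) (hu : u ∉ Bad) : v = u := by
  unfold SC at h
  induction h with
  | refl => rfl
  | tail _ h2 ih => rw [ih] at h2; exact absurd h2.1 hu

theorem reg_congr {a : ℤ} {Bad : Finset (Vx d)} {u v : Vx d} (h : SC Bad u v) :
    reg a Bad u = reg a Bad v := by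
  ext w
  constructor
  · rintro ⟨t, h1, h2⟩
    exact ⟨t, Relation.ReflTransGen.trans (SC_symm h) h1, h2⟩
  · rintro ⟨t, h1, h2⟩
    exact ⟨t, Relation.ReflTransGen.trans h h1, h2⟩

theorem ball_sub_reg {a : ℤ} {Bad : Finset (Vx d)} {s u z : Vx d} (h : SC Bad s u)
    (h1 : near 1 u z) : ball a z ⊆ reg a Bad s := by
  intro w hw
  refine ⟨u, h, ?_⟩
  have := near_trans h1 hw
  rwa [add_comm] at this

theorem ball_sub_reg_self {a : ℤ} {Bad : Finset (Vx d)} (z : Vx d) : ball a z ⊆ reg a Bad z :=
  ball_sub_reg Relation.ReflTransGen.refl (near_refl (by norm_num) z)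

/-- block of the second end of an edge -/
theorem blk_tip {K : ℤ} (hK : 0 < K) (e : Ed d) :
    blk K (tip e) = blk K e.1 ∨ blk K (tip e) = blk K e.1 + uv e.2 := by
  have h0 : ∀ k, k ≠ e.2 → blk K (tip e) k = blk K e.1 k := by
    intro k hk
    show (e.1 + uv e.2) k / K = e.1 k / K
    rw [Pi.add_apply, uv_apply, if_neg hk, add_zero]
  have h1 : blk K (tip e) e.2 = (e.1 e.2 + 1) / K := by
    show (e.1 + uv e.2) e.2 / K = _
    rw [Pi.add_apply, uv_apply, if_pos rfl]
  have h2 : (e.1 e.2 + 1) / K = e.1 e.2 / K ∨ (e.1 e.2 + 1) / K = e.1 e.2 / K + 1 := by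
    set q := e.1 e.2 / K with hq
    have h3 : K * q ≤ e.1 e.2 := by
      rw [hq]; exact Int.mul_ediv_self_le hK.ne'
    have h4 : e.1 e.2 < K * q + K := by
      rw [hq]; exact Int.lt_mul_ediv_self_add hK
    by_cases h5 : e.1 e.2 + 1 < K * q + K
    · left
      rw [Int.ediv_eq_iff_of_pos hK]
      constructor
      · linarith [mul_comm q K]
      · nlinarith [mul_comm q K]
    · right
      rw [Int.ediv_eq_iff_of_pos hK]
      have h6 : e.1 e.2 + 1 = K * q + K := by omega
      constructor
      · nlinarith [mul_comm q K]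
      · nlinarith [mul_comm q K]
  rcases h2 with h2 | h2
  · left
    funext k
    by_cases hk : k = e.2
    · rw [hk, h1, h2]; rfl
    · exact h0 k hk
  · right
    funext k
    by_cases hk : k = e.2
    · rw [hk, h1, h2, Pi.add_apply, uv_apply, if_pos rfl]; rfl
    · rw [h0 k hk, Pi.add_apply, uv_apply, if_neg hk, add_zero]

/-- a function on a box which does not change along edges is constant -/
theorem const_on_box {lo hi : Vx d} {D : Vx d → ZMod 2}
    (h : ∀ (z : Vx d) (i : Fin d), z ∈ Finset.Icc lo hi → z + uv i ∈ Finset.Icc lo hi →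
      D z = D (z + uv i)) : ∀ x ∈ Finset.Icc lo hi, ∀ y ∈ Finset.Icc lo hi, D x = D y := by
  have key : ∀ n : ℕ, ∀ x ∈ Finset.Icc lo hi, ∀ y ∈ Finset.Icc lo hi,
      ∑ i, (x i - y i).natAbs = n → D x = D y := by
    intro n
    induction n using Nat.strong_induction_on with
    | _ n ih =>
      intro x hx y hy hn
      by_cases hxy : x = y
      · rw [hxy]
      · have h1 : ∃ i, x i ≠ y i := by
          by_contra hc
          push Not at hc
          exact hxy (funext hc)
        obtain ⟨i, hi'⟩ := h1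
        have hx' := Finset.mem_Icc.mp hx
        have hy' := Finset.mem_Icc.mp hy
        have e1 : lo i ≤ x i := hx'.1 i
        have e2 : x i ≤ hi i := hx'.2 i
        have e3 : lo i ≤ y i := hy'.1 i
        have e4 : y i ≤ hi i := hy'.2 i
        have hdec : ∀ x' : Vx d, (∀ k, k ≠ i → x' k = x k) →
            (x' i - y i).natAbs < (x i - y i).natAbs → ∑ k, (x' k - y k).natAbs < n := by
          intro x' h2 h3
          rw [← hn]
          refine Finset.sum_lt_sum (fun k _ => ?_) ⟨i, Finset.mem_univ _, h3⟩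
          by_cases hk : k = i
          · subst hk; exact h3.le
          · rw [h2 k hk]
        rcases lt_or_gt_of_ne hi' with hlt | hgt
        · have hm : x + uv i ∈ Finset.Icc lo hi := by
            rw [Finset.mem_Icc]
            constructor
            · intro k
              have h2 := hx'.1 k
              have h3 := uv_nonneg i k
              rw [Pi.add_apply]
              simp only [Pi.zero_apply] at h3
              linarith
            · intro k
              rw [Pi.add_apply, uv_apply]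
              split_ifs with hk
              · subst hk
                exact (Int.add_one_le_iff.mpr hlt).trans e4
              · rw [add_zero]; exact hx'.2 k
          rw [h x i hx hm]
          refine ih _ (hdec (x + uv i) (fun k hk => ?_) ?_) _ hm _ hy rfl
          · rw [Pi.add_apply, uv_apply, if_neg hk, add_zero]
          · rw [Pi.add_apply, uv_apply, if_pos rfl]
            omega
        · have hm : x - uv i ∈ Finset.Icc lo hi := by
            rw [Finset.mem_Icc]
            constructor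
            · intro k
              rw [Pi.sub_apply, uv_apply]
              split_ifs with hk
              · subst hk
                exact e3.trans (Int.le_sub_one_iff.mpr hgt)
              · rw [sub_zero]; exact hx'.1 k
            · intro k
              have h2 := hx'.2 k
              have h3 := uv_nonneg i k
              rw [Pi.sub_apply]
              simp only [Pi.zero_apply] at h3
              linarith
          have h4 := h (x - uv i) i hm (by rw [sub_add_cancel]; exact hx)
          rw [sub_add_cancel] at h4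
          rw [← h4]
          refine ih _ (hdec (x - uv i) (fun k hk => ?_) ?_) _ hm _ hy rfl
          · rw [Pi.sub_apply, uv_apply, if_neg hk, sub_zero]
          · rw [Pi.sub_apply, uv_apply, if_pos rfl]
            omega
  intro x hx y hy
  exact key _ x hx y hy rfl

/-! ## the core -/

private lemma z2a {a b c e : ZMod 2} (h : a + b = c + e) : b + e = a + c := by
  revert a b c e; decide

private lemma cube_icc {lo hi : Vx d} {z : Vx d} {i j : Fin d} (hz : z ∈ Finset.Icc lo hi)
    (h : z + uv i + uv j ∈ Finset.Icc lo hi) :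
    z + uv i ∈ Finset.Icc lo hi ∧ z + uv j ∈ Finset.Icc lo hi := by
  have hz' := Finset.mem_Icc.mp hz
  have h' := Finset.mem_Icc.mp h
  constructor
  · rw [Finset.mem_Icc]
    constructor
    · intro k
      have a1 : lo k ≤ z k := hz'.1 k
      have a2 : (0 : ℤ) ≤ (uv i : Vx d) k := uv_nonneg i k
      rw [Pi.add_apply]
      linarith
    · intro k
      have a1 : z k + (uv i : Vx d) k + (uv j : Vx d) k ≤ hi k := h'.2 k
      have a2 : (0 : ℤ) ≤ (uv j : Vx d) k := uv_nonneg j k
      rw [Pi.add_apply]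
      linarith
  · rw [Finset.mem_Icc]
    constructor
    · intro k
      have a1 : lo k ≤ z k := hz'.1 k
      have a2 : (0 : ℤ) ≤ (uv j : Vx d) k := uv_nonneg j k
      rw [Pi.add_apply]
      linarith
    · intro k
      have a1 : z k + (uv i : Vx d) k + (uv j : Vx d) k ≤ hi k := h'.2 k
      have a2 : (0 : ℤ) ≤ (uv i : Vx d) k := uv_nonneg i k
      rw [Pi.add_apply]
      linarith

/-- vertices of the unit cube at `z` -/
def cub (z w : Vx d) : Prop := ∀ k, z k ≤ w k ∧ w k ≤ z k + 1

theorem near_of_cub {z w w' : Vx d} (h : cub z w) (h' : cub z w') : near 1 w w' := by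
  intro k
  have h1 := h k
  have h2 := h' k
  rw [abs_le]
  constructor
  · linarith [h1.1, h2.2]
  · linarith [h1.2, h2.1]

theorem cub_self (z : Vx d) : cub z z := fun k => ⟨le_refl _, by linarith⟩

theorem cub_one (z : Vx d) (i : Fin d) : cub z (z + uv i) := by
  intro k
  rw [Pi.add_apply, uv_apply]
  split_ifs
  · exact ⟨by linarith, le_refl _⟩
  · exact ⟨by linarith, by linarith⟩

theorem cub_two (z : Vx d) (i j : Fin d) (hij : i ≠ j) : cub z (z + uv i + uv j) := by
  intro k
  rw [Pi.add_apply, Pi.add_apply, uv_apply, uv_apply]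
  by_cases h1 : k = i
  · rw [if_pos h1, if_neg (fun h => hij (h1 ▸ h))]
    exact ⟨by linarith, by linarith⟩
  · rw [if_neg h1]
    split_ifs
    · exact ⟨by linarith, by linarith⟩
    · exact ⟨by linarith, by linarith⟩

/-- a vertex whose component leaves the neighbourhood of every block -/
def Wd (K a : ℤ) (lo hi : Vx d) (D : Finset (Ed d)) (y : Vx d) : Prop :=
  ∀ z ∈ Finset.Icc lo hi, ∃ w, conn (↑D) y w ∧ ¬ near a z (blk K w)

/-- `h` is even, contained in `ω` and local -/
def Lcl (K a : ℤ) (lo hi : Vx d) (ω : Finset (Ed d)) (Bad : Finset (Vx d)) (h : Finset (Ed d)) :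
    Prop :=
  h ⊆ ω ∧ bd h = 0 ∧ ∃ z ∈ Finset.Icc lo hi, h ⊆ inS K ω (reg a Bad z)

theorem core {K a : ℤ} (hK : 0 < K) (ha : 0 ≤ a) (lo hi : Vx d) (ω D : Finset (Ed d)) (hD : D ⊆ ω)
    (hbd : bd D = 0) (hbox : ∀ e ∈ D, blk K e.1 ∈ Finset.Icc lo hi ∧ blk K (tip e) ∈ Finset.Icc lo hi)
    (Bad : Finset (Vx d)) (hBad : Bad ⊆ Finset.Icc lo hi) (g : Vx d → Vx d)
    (h1 : ∀ (z : Vx d) (i : Fin d), z ∈ Finset.Icc lo hi → z + uv i ∈ Finset.Icc lo hi → z ∉ Bad →
      z + uv i ∉ Bad → conn (↑(inS K ω (ball a z))) (g z) (g (z + uv i)))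
    (h2 : ∀ z ∈ Finset.Icc lo hi, z ∉ Bad → ∀ y, blk K y = z →
      (∃ w, conn (↑D) y w ∧ ¬ near a z (blk K w)) → conn (↑(inS K ω (ball a z))) y (g z))
    (hwide : ∀ e ∈ D, Wd K a lo hi D e.1) (f : Ed d → ZMod 2)
    (hf : ∀ h, Lcl K a lo hi ω Bad h → ∑ e ∈ h, f e = 0) : ∑ e ∈ D, f e = 0 := by
  classical
  -- potentials
  let P : Set (Vx d) → (Vx d → ZMod 2) → Prop := fun S p =>
    ∀ e ∈ inS K ω S, f e = p e.1 + p (tip e)
  let pS : Set (Vx d) → Vx d → ZMod 2 := fun S => if h : ∃ p, P S p then h.choose else 0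
  have hpot : ∀ z ∈ Finset.Icc lo hi, ∀ e ∈ inS K ω (reg a Bad z),
      f e = pS (reg a Bad z) e.1 + pS (reg a Bad z) (tip e) := by
    intro z hz
    have hex : ∃ p, P (reg a Bad z) p :=
      exists_pot _ f fun h hh hb => hf h ⟨hh.trans (fl_subset _ _), hb, z, hz, hh⟩
    have h3 : pS (reg a Bad z) = hex.choose := by
      simp only [pS]
      rw [dif_pos hex]
    rw [h3]
    exact hex.choose_spec
  -- comparison of potentials
  have cmp : ∀ z ∈ Finset.Icc lo hi, ∀ w ∈ Finset.Icc lo hi, ∀ T : Set (Vx d),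
      T ⊆ reg a Bad z → T ⊆ reg a Bad w → ∀ x y, conn (↑(inS K ω T)) x y →
      pS (reg a Bad z) x + pS (reg a Bad w) x = pS (reg a Bad z) y + pS (reg a Bad w) y := by
    intro z hz w hw T hTz hTw x y hxy
    refine pot_conn (E := inS K ω T) (fun e he => ?_) hxy
    rw [← hpot z hz e (inS_mono hTz he), ← hpot w hw e (inS_mono hTw he)]
  -- values at blocks
  let val : Vx d → Vx d → ZMod 2 := fun s w => if w ∈ Bad then 0 else pS (reg a Bad s) (g w)
  have val_bad : ∀ s w, w ∈ Bad → val s w = 0 := by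
    intro s w hw
    simp only [val]
    rw [if_pos hw]
  have val_good : ∀ s w, w ∉ Bad → val s w = pS (reg a Bad s) (g w) := by
    intro s w hw
    simp only [val]
    rw [if_neg hw]
  have val_congr : ∀ s s', SC Bad s s' → ∀ w, val s w = val s' w := by
    intro s s' hs w
    simp only [val]
    rw [reg_congr hs]
  let bs : Vx d → Vx d → Vx d := fun z w => if w ∈ Bad then w else z
  let α : Vx d → Fin d → ZMod 2 := fun z i =>
    val (bs z (z + uv i)) z + val (bs z (z + uv i)) (z + uv i)
  -- (*)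
  have cover : ∀ s ∈ Finset.Icc lo hi, ∀ (z : Vx d) (i : Fin d), z ∈ Finset.Icc lo hi →
      z + uv i ∈ Finset.Icc lo hi → (∃ u, SC Bad s u ∧ near 1 u z ∧ near 1 u (z + uv i)) →
      (s ∈ Bad ∨ (z ∉ Bad ∧ z + uv i ∉ Bad)) → α z i = val s z + val s (z + uv i) := by
    intro s hs z i hz hw hu hor
    obtain ⟨u, hu1, hu2, hu3⟩ := hu
    have hbad : ∀ b, b ∈ Bad → near 1 u b → s ∈ Bad → SC Bad b s := by
      intro b hb hub hsB
      have h3 : SC Bad s b := Relation.ReflTransGen.tail hu1 ⟨SC_mem hu1 hsB, hb, hub⟩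
      exact SC_symm h3
    simp only [α, bs]
    by_cases hwB : z + uv i ∈ Bad
    · rw [if_pos hwB]
      have hsB : s ∈ Bad := hor.resolve_right fun h => h.2 hwB
      have h3 := hbad _ hwB hu3 hsB
      rw [val_congr _ _ h3, val_congr _ _ h3]
    · rw [if_neg hwB]
      by_cases hzB : z ∈ Bad
      · have hsB : s ∈ Bad := hor.resolve_right fun h => h.1 hzB
        have h3 := hbad _ hzB hu2 hsB
        rw [val_congr _ _ h3, val_congr _ _ h3]
      · rw [val_good _ _ hzB, val_good _ _ hwB, val_good _ _ hzB, val_good _ _ hwB]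
        have h3 := cmp z hz s hs (ball a z) (ball_sub_reg_self z) (ball_sub_reg hu1 hu2) _ _
          (h1 z i hz hw hzB hwB)
        revert h3
        generalize pS (reg a Bad z) (g z) = a1
        generalize pS (reg a Bad s) (g z) = a2
        generalize pS (reg a Bad z) (g (z + uv i)) = a3
        generalize pS (reg a Bad s) (g (z + uv i)) = a4
        revert a1 a2 a3 a4
        decide
  -- closed
  have hclosed : Closed lo hi α := by
    intro z i j hij hz hw
    obtain ⟨hzi, hzj⟩ := cube_icc hz hw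
    have hw' : z + uv j + uv i ∈ Finset.Icc lo hi := by
      rw [add_assoc, add_comm (uv j), ← add_assoc]; exact hw
    have hc0 := cub_self z
    have hci := cub_one z i
    have hcj := cub_one z j
    have hcij := cub_two z i j hij
    have hcji : cub z (z + uv j + uv i) := cub_two z j i (Ne.symm hij)
    have hs : ∃ s ∈ Finset.Icc lo hi, cub z s ∧ (s ∈ Bad ∨ (z ∉ Bad ∧ z + uv i ∉ Bad ∧
        z + uv j ∉ Bad ∧ z + uv i + uv j ∉ Bad)) := by
      by_cases b1 : z ∈ Bad
      · exact ⟨z, hz, hc0, Or.inl b1⟩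
      · by_cases b2 : z + uv i ∈ Bad
        · exact ⟨_, hzi, hci, Or.inl b2⟩
        · by_cases b3 : z + uv j ∈ Bad
          · exact ⟨_, hzj, hcj, Or.inl b3⟩
          · by_cases b4 : z + uv i + uv j ∈ Bad
            · exact ⟨_, hw, hcij, Or.inl b4⟩
            · exact ⟨z, hz, hc0, Or.inr ⟨b1, b2, b3, b4⟩⟩
    obtain ⟨s, hsL, hsc, hsb⟩ := hs
    have hcomm : z + uv j + uv i = z + uv i + uv j := by
      rw [add_assoc, add_comm (uv j), ← add_assoc]
    have c1 := cover s hsL z i hz hzi ⟨s, Relation.ReflTransGen.refl, near_of_cub hsc hc0,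
      near_of_cub hsc hci⟩ (hsb.imp_right fun h => ⟨h.1, h.2.1⟩)
    have c2 := cover s hsL (z + uv i) j hzi hw ⟨s, Relation.ReflTransGen.refl, near_of_cub hsc hci,
      near_of_cub hsc hcij⟩ (hsb.imp_right fun h => ⟨h.2.1, h.2.2.2⟩)
    have c3 := cover s hsL z j hz hzj ⟨s, Relation.ReflTransGen.refl, near_of_cub hsc hc0,
      near_of_cub hsc hcj⟩ (hsb.imp_right fun h => ⟨h.1, h.2.2.1⟩)
    have c4 := cover s hsL (z + uv j) i hzj hw' ⟨s, Relation.ReflTransGen.refl,
      near_of_cub hsc hcj, near_of_cub hsc hcji⟩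
      (hsb.imp_right fun h => ⟨h.2.2.1, by rw [hcomm]; exact h.2.2.2⟩)
    rw [c1, c2, c3, c4, hcomm]
    generalize val s z = a1; generalize val s (z + uv i) = a2
    generalize val s (z + uv i + uv j) = a3; generalize val s (z + uv j) = a4
    revert a1 a2 a3 a4
    decide
  obtain ⟨κ, hκ⟩ := exact_of_closed lo hi α hclosed
  -- constant on the neighbourhood of a star component
  have hcube : ∀ s ∈ Bad, ∀ u, SC Bad s u → ∀ w ∈ Finset.Icc lo hi, near 1 u w →
      val s w + κ w = val s u + κ u := by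
    intro s hs u hu w hw huw
    have hsL := hBad hs
    have huL := hBad (SC_mem hu hs)
    let lo' : Vx d := fun k => max (lo k) (u k - 1)
    let hi' : Vx d := fun k => min (hi k) (u k + 1)
    have hmem : ∀ v : Vx d, v ∈ Finset.Icc lo' hi' ↔ v ∈ Finset.Icc lo hi ∧ near 1 u v := by
      intro v
      rw [Finset.mem_Icc, Finset.mem_Icc]
      constructor
      · rintro ⟨p, q⟩
        refine ⟨⟨fun k => (le_max_left _ _).trans (p k), fun k => (q k).trans (min_le_left _ _)⟩,
          fun k => ?_⟩
        have p1 : u k - 1 ≤ v k := (le_max_right _ _).trans (p k)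
        have q1 : v k ≤ u k + 1 := (q k).trans (min_le_right _ _)
        rw [abs_le]
        constructor
        · linarith
        · linarith
      · rintro ⟨⟨p, q⟩, r⟩
        refine ⟨fun k => max_le (p k) ?_, fun k => le_min (q k) ?_⟩
        · have := (abs_le.mp (r k)).2
          linarith
        · have := (abs_le.mp (r k)).1
          linarith
    refine const_on_box (lo := lo') (hi := hi') (D := fun w => val s w + κ w) (fun z i hz hzi => ?_)
      w ((hmem w).mpr ⟨hw, huw⟩) u ((hmem u).mpr ⟨huL, near_refl (by norm_num) u⟩)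
    obtain ⟨z1, z2⟩ := (hmem z).mp hz
    obtain ⟨z3, z4⟩ := (hmem _).mp hzi
    have c1 := cover s hsL z i z1 z3 ⟨u, hu, z2, z4⟩ (Or.inl hs)
    have c2 := hκ z i z1 z3
    show val s z + κ z = val s (z + uv i) + κ (z + uv i)
    rw [c1] at c2
    revert c2
    generalize val s z = a1; generalize val s (z + uv i) = a2
    generalize κ z = a3; generalize κ (z + uv i) = a4
    revert a1 a2 a3 a4
    decide
  have hkap : ∀ s ∈ Bad, ∀ u, SC Bad s u → κ u = κ s := by
    intro s hs u hu
    have hu' : Relation.ReflTransGen (star Bad) s u := hu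
    induction hu' with
    | refl => rfl
    | tail hab hbc ih =>
      rename_i b c
      have h3 := hcube s hs b hab c (hBad hbc.2.1) hbc.2.2
      rw [val_bad _ _ hbc.2.1, val_bad _ _ hbc.1, zero_add, zero_add] at h3
      rw [h3]
      exact ih hab
  have hconst : ∀ s ∈ Bad, ∀ u, SC Bad s u → ∀ w ∈ Finset.Icc lo hi, near 1 u w →
      val s w + κ w = val s s + κ s := by
    intro s hs u hu w hw huw
    rw [hcube s hs u hu w hw huw, val_bad _ _ (SC_mem hu hs), val_bad _ _ hs, hkap s hs u hu]
  -- the global potential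
  let Ψ : Vx d → ZMod 2 := fun x =>
    pS (reg a Bad (blk K x)) x + (val (blk K x) (blk K x) + κ (blk K x))
  have claim : ∀ y, Wd K a lo hi D y → blk K y ∈ Finset.Icc lo hi → ∀ s ∈ Finset.Icc lo hi,
      (∃ u, SC Bad s u ∧ near 1 u (blk K y)) →
      (s ∈ Bad ∨ blk K y ∉ Bad ∧ val s (blk K y) + κ (blk K y) = val s s + κ s) →
      Ψ y = pS (reg a Bad s) y + (val s s + κ s) := by
    intro y hy hyL s hsL hu hor
    obtain ⟨u, hu1, hu2⟩ := hu
    simp only [Ψ]
    by_cases hyB : blk K y ∈ Bad
    · have hsB : s ∈ Bad := hor.resolve_right fun h => h.1 hyB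
      have h3 : SC Bad s (blk K y) := Relation.ReflTransGen.tail hu1 ⟨SC_mem hu1 hsB, hyB, hu2⟩
      rw [← reg_congr h3, val_bad _ _ hyB, val_bad _ _ hsB, hkap s hsB _ h3]
    · have h3 := h2 _ hyL hyB y rfl (hy _ hyL)
      have h4 := cmp _ hyL s hsL (ball a (blk K y)) (ball_sub_reg_self _) (ball_sub_reg hu1 hu2)
        _ _ h3
      have h5 : val s (blk K y) + κ (blk K y) = val s s + κ s := by
        rcases hor with h | h
        · exact hconst s h u hu1 _ hyL hu2
        · exact h.2
      rw [val_good _ _ hyB] at h5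
      rw [val_good _ _ hyB, ← h5]
      revert h4
      generalize pS (reg a Bad (blk K y)) y = a1
      generalize pS (reg a Bad s) y = a2
      generalize pS (reg a Bad (blk K y)) (g (blk K y)) = a3
      generalize pS (reg a Bad s) (g (blk K y)) = a4
      generalize κ (blk K y) = a5
      revert a1 a2 a3 a4 a5
      decide
  -- the edges
  have hedge : ∀ e ∈ D, f e = Ψ e.1 + Ψ (tip e) := by
    intro e he
    obtain ⟨hx, hy⟩ := hbox e he
    have w1 : Wd K a lo hi D e.1 := hwide e he
    have hadj : conn (↑D) (tip e) e.1 := by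
      refine Relation.ReflTransGen.single ⟨e.2, Or.inr ⟨?_, rfl⟩⟩
      exact Finset.mem_coe.mpr he
    have w2 : Wd K a lo hi D (tip e) := by
      intro z hz
      obtain ⟨w, hw, hn⟩ := w1 z hz
      exact ⟨w, conn_trans hadj hw, hn⟩
    have hn1 : near 1 (blk K e.1) (blk K (tip e)) := by
      rcases blk_tip hK e with h | h
      · rw [h]; exact near_refl (by norm_num) _
      · rw [h]; exact near_uv _ _
    have fin : ∀ s ∈ Finset.Icc lo hi, near 1 s (blk K e.1) → near 1 s (blk K (tip e)) →
        (s ∈ Bad ∨ blk K e.1 ∉ Bad ∧ val s (blk K e.1) + κ (blk K e.1) = val s s + κ s) →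
        (s ∈ Bad ∨ blk K (tip e) ∉ Bad ∧
          val s (blk K (tip e)) + κ (blk K (tip e)) = val s s + κ s) →
        f e = Ψ e.1 + Ψ (tip e) := by
      intro s hsL n1 n2 o1 o2
      rw [claim _ w1 hx s hsL ⟨s, Relation.ReflTransGen.refl, n1⟩ o1,
        claim _ w2 hy s hsL ⟨s, Relation.ReflTransGen.refl, n2⟩ o2]
      have h3 : e ∈ inS K ω (reg a Bad s) := by
        rw [mem_inS]
        exact ⟨hD he, ⟨s, Relation.ReflTransGen.refl, near_mono (by linarith) n1⟩,
          ⟨s, Relation.ReflTransGen.refl, near_mono (by linarith) n2⟩⟩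
      rw [hpot s hsL e h3]
      generalize pS (reg a Bad s) e.1 = a1
      generalize pS (reg a Bad s) (tip e) = a2
      generalize val s s = a3
      generalize κ s = a4
      revert a1 a2 a3 a4
      decide
    by_cases b2 : blk K (tip e) ∈ Bad
    · exact fin _ hy (near_symm hn1) (near_refl (by norm_num) _) (Or.inl b2) (Or.inl b2)
    · by_cases b1 : blk K e.1 ∈ Bad
      · exact fin _ hx (near_refl (by norm_num) _) hn1 (Or.inl b1) (Or.inl b1)
      · refine fin _ hx (near_refl (by norm_num) _) hn1 (Or.inr ⟨b1, rfl⟩) (Or.inr ⟨b2, ?_⟩)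
        rcases blk_tip hK e with h | h
        · rw [h]
        · rw [h] at hy hn1 b2 ⊢
          have c1 := cover _ hx (blk K e.1) e.2 hx hy ⟨_, Relation.ReflTransGen.refl,
            near_refl (by norm_num) _, hn1⟩ (Or.inr ⟨b1, b2⟩)
          have c2 := hκ _ _ hx hy
          rw [c1] at c2
          revert c2
          generalize val (blk K e.1) (blk K e.1) = a1
          generalize val (blk K e.1) (blk K e.1 + uv e.2) = a2
          generalize κ (blk K e.1) = a3
          generalize κ (blk K e.1 + uv e.2) = a4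
          revert a1 a2 a3 a4
          decide
  rw [Finset.sum_congr rfl hedge]
  exact pair_bd D Ψ hbd

/-! ## the theorem -/

theorem bde_eq_zero {e : Ed d} {v : Vx d} (h1 : v ≠ e.1) (h2 : v ≠ tip e) : bde e v = 0 := by
  unfold bde
  rw [Pi.add_apply, Pi.single_eq_of_ne h1, Pi.single_eq_of_ne h2, add_zero]

theorem conn_tip {D : Finset (Ed d)} {e : Ed d} (he : e ∈ D) : conn (↑D) e.1 (tip e) :=
  Relation.ReflTransGen.single ⟨e.2, Or.inl ⟨Finset.mem_coe.mpr he, rfl⟩⟩

/-- the component of `x` in an even set is even -/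
theorem bd_comp (D : Finset (Ed d)) (hD : bd D = 0) (x : Vx d) :
    bd (fl D (fun e => conn (↑D) x e.1)) = 0 := by
  classical
  funext v
  have h0 : ∑ e ∈ D, bde e v = 0 := by
    have := congrFun hD v
    unfold bd at this
    rw [Finset.sum_apply] at this
    exact this
  unfold bd
  rw [Finset.sum_apply]
  by_cases hv : conn (↑D) x v
  · rw [Pi.zero_apply, ← h0]
    refine Finset.sum_subset (fl_subset _ _) fun e he hne => ?_
    refine bde_eq_zero (fun h => hne ?_) (fun h => hne ?_)
    · rw [mem_fl]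
      exact ⟨he, h ▸ hv⟩
    · rw [mem_fl]
      refine ⟨he, conn_trans (h ▸ hv) (conn_symm (conn_tip he))⟩
  · refine Finset.sum_eq_zero fun e he => ?_
    rw [mem_fl] at he
    refine bde_eq_zero (fun h => hv (h ▸ he.2)) (fun h => hv ?_)
    rw [h]
    exact conn_trans he.2 (conn_tip he.1)

theorem bd_sdiff {D C : Finset (Ed d)} (h : C ⊆ D) (hD : bd D = 0) (hC : bd C = 0) :
    bd (D \ C) = 0 := by
  have h1 : bd (D \ C) + bd C = bd D := by
    unfold bd
    exact Finset.sum_sdiff h
  rw [hD, hC, add_zero] at h1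
  exact h1

theorem chi_sdiff {D C : Finset (Ed d)} (h : C ⊆ D) : chi (D \ C) + chi C = chi D := by
  unfold chi
  exact Finset.sum_sdiff h

theorem loc_span {K a : ℤ} (hK : 0 < K) (ha : 0 ≤ a) (lo hi : Vx d) (ω : Finset (Ed d))
    (Bad : Finset (Vx d)) (hBad : Bad ⊆ Finset.Icc lo hi) (g : Vx d → Vx d)
    (h1 : ∀ (z : Vx d) (i : Fin d), z ∈ Finset.Icc lo hi → z + uv i ∈ Finset.Icc lo hi → z ∉ Bad →
      z + uv i ∉ Bad → conn (↑(inS K ω (ball a z))) (g z) (g (z + uv i))) :
    ∀ n : ℕ, ∀ D : Finset (Ed d), D.card ≤ n → D ⊆ ω → bd D = 0 →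
    (∀ e ∈ D, blk K e.1 ∈ Finset.Icc lo hi ∧ blk K (tip e) ∈ Finset.Icc lo hi) →
    (∀ z ∈ Finset.Icc lo hi, z ∉ Bad → ∀ y, blk K y = z →
      (∃ w, conn (↑D) y w ∧ ¬ near a z (blk K w)) → conn (↑(inS K ω (ball a z))) y (g z)) →
    chi D ∈ Submodule.span (ZMod 2) (chi '' {h | Lcl K a lo hi ω Bad h}) := by
  intro n
  induction n with
  | zero =>
    intro D hn _ _ _ _
    have h0 : D = ∅ := Finset.card_eq_zero.mp (Nat.le_zero.mp hn)
    have h3 : chi D = 0 := by
      rw [h0]; unfold chi; rw [Finset.sum_empty]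
    rw [h3]
    exact Submodule.zero_mem _
  | succ n ih =>
    intro D hn hD hbd hbox h2
    by_cases hw : ∀ e ∈ D, Wd K a lo hi D e.1
    · exact mem_span_of_dual fun f hf =>
        core hK ha lo hi ω D hD hbd hbox Bad hBad g h1 h2 hw f hf
    · push Not at hw
      obtain ⟨e0, he0, hw⟩ := hw
      unfold Wd at hw
      push Not at hw
      obtain ⟨z, hz, hw⟩ := hw
      set C := fl D (fun e => conn (↑D) e0.1 e.1) with hC
      have hCD : C ⊆ D := fl_subset _ _
      have heC : e0 ∈ C := by
        rw [hC, mem_fl]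
        exact ⟨he0, conn_refl _ _⟩
      have hbC : bd C = 0 := bd_comp D hbd e0.1
      have hlC : Lcl K a lo hi ω Bad C := by
        refine ⟨hCD.trans hD, hbC, z, hz, fun e he => ?_⟩
        have he' := (mem_fl _ _ _).mp he
        rw [mem_inS]
        refine ⟨hD he'.1, ⟨z, Relation.ReflTransGen.refl, ?_⟩, ⟨z, Relation.ReflTransGen.refl, ?_⟩⟩
        · exact near_mono (by linarith) (hw _ he'.2)
        · exact near_mono (by linarith) (hw _ (conn_trans he'.2 (conn_tip he'.1)))
      have hcard : (D \ C).card ≤ n := by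
        have h3 : (D \ C).card < D.card := by
          refine Finset.card_lt_card ?_
          rw [Finset.ssubset_iff_subset_ne]
          refine ⟨Finset.sdiff_subset, fun h => ?_⟩
          have h4 : e0 ∈ D \ C := by rw [h]; exact he0
          exact (Finset.mem_sdiff.mp h4).2 heC
        omega
      have h3 := ih (D \ C) hcard (Finset.sdiff_subset.trans hD) (bd_sdiff hCD hbd hbC)
        (fun e he => hbox e (Finset.sdiff_subset he)) (fun z hz hzB y hy hex => by
          obtain ⟨w, hw1, hw2⟩ := hex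
          exact h2 z hz hzB y hy ⟨w, conn_mono (by
            intro e he
            exact Finset.mem_coe.mpr (Finset.sdiff_subset (Finset.mem_coe.mp he))) hw1, hw2⟩)
      rw [← chi_sdiff hCD]
      exact Submodule.add_mem _ h3 (Submodule.subset_span ⟨C, hlC, rfl⟩)

/-- **LOC.** -/
theorem loc {K a : ℤ} (hK : 0 < K) (ha : 0 ≤ a) (lo hi : Vx d) (ω D : Finset (Ed d)) (hD : D ⊆ ω)
    (hbd : bd D = 0) (hbox : ∀ e ∈ D, blk K e.1 ∈ Finset.Icc lo hi ∧ blk K (tip e) ∈ Finset.Icc lo hi)
    (Bad : Finset (Vx d)) (hBad : Bad ⊆ Finset.Icc lo hi) (g : Vx d → Vx d)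
    (h1 : ∀ (z : Vx d) (i : Fin d), z ∈ Finset.Icc lo hi → z + uv i ∈ Finset.Icc lo hi → z ∉ Bad →
      z + uv i ∉ Bad → conn (↑(inS K ω (ball a z))) (g z) (g (z + uv i)))
    (h2 : ∀ z ∈ Finset.Icc lo hi, z ∉ Bad → ∀ y, blk K y = z →
      (∃ w, conn (↑D) y w ∧ ¬ near a z (blk K w)) → conn (↑(inS K ω (ball a z))) y (g z)) :
    ∃ F : Finset (Finset (Ed d)), (∀ h ∈ F, h ⊆ ω ∧ bd h = 0 ∧ ∃ z ∈ Finset.Icc lo hi,
      ∀ e ∈ h, (∃ u, SC Bad z u ∧ near (a + 1) u (blk K e.1)) ∧
        ∃ u, SC Bad z u ∧ near (a + 1) u (blk K (tip e))) ∧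
      ∀ e, e ∈ D ↔ Odd (F.filter (fun h => e ∈ h)).card := by
  obtain ⟨F, hF, hsum⟩ := exists_family
    (loc_span hK ha lo hi ω Bad hBad g h1 D.card D (le_refl _) hD hbd hbox h2)
  refine ⟨F, fun h hh => ?_, odd_of_sum hsum⟩
  obtain ⟨p1, p2, z, hz, p3⟩ := hF h hh
  refine ⟨p1, p2, z, hz, fun e he => ?_⟩
  have h3 := (mem_inS.mp (p3 he)).2
  exact h3

end Pool.Agent.Lcg
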